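import Pool.Agent.helper64.PB.SpecA

/-! # Row pb:DUA (duality) -/

set_option autoImplicit false

namespace Pool.Agent.PB

/-- the dual gate -/
def DUA_g (g : Gate) : Gate := ⟨g.1, dual g.2⟩

theorem DUA_dd {n : ℕ} (f : BF n) : dual (dual f) = f := by
  funext x
  simp [dual]

theorem DUA_gg (g : Gate) : DUA_g (DUA_g g) = g := by
  obtain ⟨r, f⟩ := g
  change (⟨r, dual (dual f)⟩ : Gate) = ⟨r, f⟩
  rw [DUA_dd]

theorem DUA_mem (G : Set Gate) (g : Gate) : g ∈ dualB G ↔ DUA_g g ∈ G := Iff.rfl

theorem DUA_BB (G : Set Gate) : dualB (dualB G) = G := by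
  ext g
  rw [DUA_mem, DUA_mem, DUA_gg]

theorem DUA_fin (G : Set Gate) (h : G.Finite) : (dualB G).Finite := by
  have e : dualB G = DUA_g ⁻¹' G := rfl
  rw [e]
  refine h.preimage (Function.Injective.injOn fun a b hab => ?_)
  rw [← DUA_gg a, ← DUA_gg b, hab]

theorem DUA_prog (G : Set Gate) (n : ℕ) (l : List (BF n)) (h : Prog G n l) :
    Prog (dualB G) n (l.map dual) := by
  induction h with
  | nil => exact Prog.nil
  | step l g a h hg ha ih =>
    have hg' : DUA_g g ∈ dualB G := by
      rw [DUA_mem, DUA_gg]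
      exact hg
    have key := Prog.step (l.map dual) (DUA_g g) (fun i => dual (a i)) ih hg' (fun i => by
      rcases ha i with h1 | ⟨j, h1⟩
      · exact Or.inl (List.mem_map_of_mem h1)
      · refine Or.inr ⟨j, ?_⟩
        rw [h1]
        funext x
        simp [dual])
    have e : (fun x => (DUA_g g).2 fun i => (fun i => dual (a i)) i x) =
        dual (fun x => g.2 fun i => a i x) := by
      funext x
      change (!(g.2 fun i => !(!(a i fun k => !(x k))))) = !(g.2 fun i => a i fun k => !(x k))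
      simp only [Bool.not_not]
    rw [e] at key
    exact key

theorem DUA_size1 (G : Set Gate) (n : ℕ) (f : BF n) (s : ℕ) (h : Size G f s) :
    Size (dualB G) (dual f) s := by
  obtain ⟨l, h1, h2, h3⟩ := h
  refine ⟨l.map dual, DUA_prog G n l h1, ?_, ?_⟩
  · rw [List.length_map]
    exact h2
  · rcases h3 with h3 | ⟨j, h3⟩
    · exact Or.inl (List.mem_map_of_mem h3)
    · refine Or.inr ⟨j, ?_⟩
      rw [h3]
      funext x
      simp [dual]

theorem DUA_size (G : Set Gate) (n : ℕ) (f : BF n) (s : ℕ) :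
    Size (dualB G) (dual f) s ↔ Size G f s := by
  refine ⟨fun h => ?_, DUA_size1 G n f s⟩
  have := DUA_size1 _ n _ s h
  rwa [DUA_BB, DUA_dd] at this

theorem DUA_cst (b : Bool) : DUA_g (gConst b) = gConst (!b) := rfl

theorem DUA_not : DUA_g gNot = gNot := by
  change (⟨1, dual fun x => !(x 0)⟩ : Gate) = ⟨1, fun x => !(x 0)⟩
  congr 1
  funext x
  simp [dual]

theorem DUA_and : DUA_g gAnd = gOr := by
  change (⟨2, dual fun x => x 0 && x 1⟩ : Gate) = ⟨2, fun x => x 0 || x 1⟩
  congr 1
  funext x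
  simp [dual]

theorem DUA_or : DUA_g gOr = gAnd := by
  rw [← DUA_and, DUA_gg]

theorem DUA_self (G : Set Gate) (h : ∀ g ∈ G, DUA_g g ∈ G) : dualB G = G := by
  ext g
  rw [DUA_mem]
  refine ⟨fun hg => ?_, h g⟩
  rw [← DUA_gg g]
  exact h _ hg

theorem DUA_std : dualB std = std := by
  refine DUA_self _ fun g hg => ?_
  rcases hg with rfl | rfl | rfl | rfl | hg
  · rw [DUA_cst]
    simp [std]
  · rw [DUA_cst]
    simp [std]
  · rw [DUA_not]
    simp [std]
  · rw [DUA_and]
    simp [std]
  · rw [Set.mem_singleton_iff] at hg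
    rw [hg, DUA_or]
    simp [std]

theorem DUA_mon : dualB mon = mon := by
  refine DUA_self _ fun g hg => ?_
  rcases hg with rfl | rfl | rfl | hg
  · rw [DUA_cst]
    simp [mon]
  · rw [DUA_cst]
    simp [mon]
  · rw [DUA_and]
    simp [mon]
  · rw [Set.mem_singleton_iff] at hg
    rw [hg, DUA_or]
    simp [mon]

theorem DUA_Mono {n : ℕ} (f : BF n) (h : Mono f) : Mono (dual f) := by
  intro x y hxy hx
  unfold dual at hx ⊢
  rw [Bool.not_eq_true'] at hx ⊢
  by_contra hc
  rw [Bool.not_eq_false] at hc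
  have := h (fun i => !(y i)) (fun i => !(x i)) (fun i hi => by
    rw [Bool.not_eq_true'] at hi ⊢
    by_contra hh
    rw [Bool.not_eq_false] at hh
    rw [hxy i hh] at hi
    exact absurd hi (by decide)) hc
  rw [hx] at this
  exact absurd this (by decide)

theorem DUA_Affine {n : ℕ} (f : BF n) (h : Affine f) : Affine (dual f) := by
  intro x y z
  unfold dual
  have e : (fun i => !(xor (x i) (xor (y i) (z i)))) =
      fun i => xor (!(x i)) (xor (!(y i)) (!(z i))) := by
    funext i
    cases x i <;> cases y i <;> cases z i <;> rfl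
  rw [e, h (fun i => !(x i)) (fun i => !(y i)) (fun i => !(z i))]
  generalize (f fun i => !(x i)) = a
  generalize (f fun i => !(y i)) = b
  generalize (f fun i => !(z i)) = c
  cases a <;> cases b <;> cases c <;> rfl

theorem DUA_Conj {n : ℕ} (f : BF n) (h : Conj f) : Disj (dual f) := by
  intro x y
  unfold dual
  have e : (fun i => !(x i || y i)) = fun i => (!(x i)) && (!(y i)) := by
    funext i
    cases x i <;> cases y i <;> rfl
  rw [e, h (fun i => !(x i)) (fun i => !(y i))]
  generalize (f fun i => !(x i)) = a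
  generalize (f fun i => !(y i)) = b
  cases a <;> cases b <;> rfl

theorem DUA_Disj {n : ℕ} (f : BF n) (h : Disj f) : Conj (dual f) := by
  intro x y
  unfold dual
  have e : (fun i => !(x i && y i)) = fun i => (!(x i)) || (!(y i)) := by
    funext i
    cases x i <;> cases y i <;> rfl
  rw [e, h (fun i => !(x i)) (fun i => !(y i))]
  generalize (f fun i => !(x i)) = a
  generalize (f fun i => !(y i)) = b
  cases a <;> cases b <;> rfl

theorem DUA_SelfDual {n : ℕ} (f : BF n) (h : SelfDual f) : SelfDual (dual f) := by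
  intro x
  unfold dual
  rw [h (fun i => !(x i))]

/-- **DUA**. -/
theorem DUA : DUA_stmt := by
  refine ⟨fun n f => DUA_dd f, DUA_BB, DUA_fin, DUA_size, ?_, ?_, ?_⟩
  · intro n f s
    have := DUA_size std n f s
    rwa [DUA_std] at this
  · intro n f s
    have := DUA_size mon n f s
    rwa [DUA_mon] at this
  · intro n f
    refine ⟨⟨fun h => ?_, DUA_Mono f⟩, ⟨fun h => ?_, DUA_Affine f⟩, ⟨fun h => ?_, DUA_Disj f⟩,
      ⟨fun h => ?_, DUA_Conj f⟩, ⟨fun h => ?_, DUA_SelfDual f⟩⟩
    · have := DUA_Mono _ h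
      rwa [DUA_dd] at this
    · have := DUA_Affine _ h
      rwa [DUA_dd] at this
    · have := DUA_Conj _ h
      rwa [DUA_dd] at this
    · have := DUA_Disj _ h
      rwa [DUA_dd] at this
    · have := DUA_SelfDual _ h
      rwa [DUA_dd] at this

end Pool.Agent.PB
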