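import Pool.Agent.helper64.PB.SpecL

/-! # Row pb:REN -/

set_option autoImplicit false

namespace Pool.Agent.PB

theorem REN_neg (n : ℕ) (js : List (Fin n)) :
    Prog std n (js.map fun j => (fun x => !(x j) : BF n)) := by
  induction js with
  | nil => exact Prog.nil
  | cons j js ih =>
    rw [List.map_cons]
    exact Prog.step _ gNot (fun _ x => x j) ih (by simp [std]) (fun _ => Or.inr ⟨j, rfl⟩)

/-- the program with all negations and the two constants -/
def REN_l (n : ℕ) : List (BF n) :=
  fC true n :: fC false n :: (List.finRange n).map fun j => (fun x => !(x j) : BF n)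

theorem REN_prog (n : ℕ) : Prog std n (REN_l n) := by
  have h1 : Prog std n (fC false n :: (List.finRange n).map fun j => (fun x => !(x j) : BF n)) :=
    Prog.step _ (gConst false) (fun i => i.elim0) (REN_neg n _) (by simp [std]) (fun i => i.elim0)
  exact Prog.step _ (gConst true) (fun i => i.elim0) h1 (by simp [std]) (fun i => i.elim0)

/-- **REN**. -/
theorem REN (hSUB : SUB_stmt) (hAPP : APP_stmt) : REN_stmt := by
  intro m n u s φ hφ hu
  have hav : ∀ i, Av (REN_l n) (φ i) := by
    intro i
    rcases hφ i with ⟨j, h⟩ | ⟨j, h⟩ | ⟨v, h⟩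
    · exact Or.inr ⟨j, h⟩
    · left
      rw [h]
      unfold REN_l
      exact List.mem_cons_of_mem _ (List.mem_cons_of_mem _
        (List.mem_map.2 ⟨j, List.mem_finRange j, rfl⟩))
    · left
      rw [h]
      unfold REN_l
      cases v
      · exact List.mem_cons_of_mem _ List.mem_cons_self
      · exact List.mem_cons_self
  obtain ⟨l', h1, h2, h3⟩ := hSUB std m n u s (REN_l n) φ hu (REN_prog n) hav
  refine ⟨l' ++ REN_l n, h1, ?_, h3⟩
  have e : (REN_l n).length = n + 2 := by
    unfold REN_l
    simp
  rw [List.length_append, e]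
  omega

end Pool.Agent.PB
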